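import Pool.Agent.N869.GK.D.Stm

/-!
# Project GK: the conclusion of the descent from the parts
-/

set_option autoImplicit false
set_option linter.unusedVariables false

open scoped Classical

namespace Pool.Agent.N869.GK.D

open Finset
open Pool.Agent.Y703.CQ (nr)
open Pool.Agent.TH841.SH (LocC SelG)
open Pool.Agent.W307.SE (SelR)
open Pool.Agent.N869.GK

theorem rep_zero {r : ℕ} (g : Fin r → ℤ) : rep g 0 = 1 := by
  unfold rep
  refine prod_eq_one fun i _ => ?_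
  have h : ¬ ((0 : ZMod 2) = 1) := by decide
  exact if_neg h

/-- cancelling a square -/
theorem sq_cancel {a s : ℤ} (hs : s ≠ 0) (h : IsSquare (a * s ^ 2)) : IsSquare a := by
  obtain ⟨t, ht⟩ := h
  have h1 : s ^ 2 ∣ t ^ 2 := ⟨a, by rw [sq t, ← ht]; ring⟩
  have h2 : s ∣ t := (Int.pow_dvd_pow_iff (by norm_num)).1 h1
  obtain ⟨u, rfl⟩ := h2
  refine ⟨u, ?_⟩
  have h3 : s ^ 2 ≠ 0 := pow_ne_zero 2 hs
  apply mul_right_cancel₀ h3
  rw [ht]
  ring

theorem t_DES (hGEN : S_GEN) (hLAB : S_LAB) (hHS : S_HS) (hQV : S_QV) (hLCG : S_LCG)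
    (hGOOD : S_GOOD) (hUNR : S_UNR) (hRAM : S_RAM) (hW0 : S_W0) (hEXT : S_EXT) (hRK : S_RK)
    (hINJ : S_INJ) (hSUB : S_SUB) : S_DES := by
  intro b e1 e2 e3 hC k e hcard
  have hodd : ∀ l ∈ b, l.Prime ∧ l ≠ 2 := fun l hl => ⟨((hC.mem l).1 hl).1, ((hC.mem l).1 hl).2.1⟩
  obtain ⟨r, g, hg⟩ := hGEN.1 b hodd
  obtain ⟨g1, g2, g3, g4, g5⟩ := hGEN.2 b r g hg
  obtain ⟨l1, l2, l3, l4, l5, l6, l7⟩ := hLAB hGEN b r g hg
  obtain ⟨W₀, hW, hq, ht1, ht2⟩ := hW0 hGEN hLAB hHS hQV hLCG b e1 e2 e3 r g hg hC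
  obtain ⟨W, hle, hs, hm, hG⟩ := hEXT r (PD g e1 e2 e3 W₀) hq
  have n12 : e1 - e2 ≠ 0 := sub_ne_zero.2 hC.h12
  have n13 : e1 - e3 ≠ 0 := sub_ne_zero.2 hC.h13
  have n23 : e2 - e3 ≠ 0 := sub_ne_zero.2 hC.h23
  have n21 : e2 - e1 ≠ 0 := sub_ne_zero.2 hC.h12.symm
  have hdiv : ∀ n : ℤ, n ∣ (e1 - e2) * (e1 - e3) * (e2 - e3) * (e1 - e2) →
      ∀ p : ℕ, p.Prime → (p : ℤ) ∣ n → p = 2 ∨ p ∈ b := by
    intro n hn p hp hpn
    by_cases h2 : p = 2
    · exact Or.inl h2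
    · right
      refine (hC.mem p).2 ⟨hp, h2, ?_⟩
      have hp' : Prime (p : ℤ) := Nat.prime_iff_prime_int.1 hp
      rcases hp'.dvd_mul.1 (hpn.trans hn) with h | h
      · exact h
      · exact (h.mul_right (e1 - e3)).mul_right (e2 - e3)
  have ea := g5 ((e1 - e2) * (e1 - e3)) (mul_ne_zero n12 n13)
    (hdiv _ ⟨(e2 - e3) * (e1 - e2), by ring⟩)
  have eb := g5 ((e2 - e1) * (e2 - e3)) (mul_ne_zero n21 n23)
    (hdiv _ ⟨-((e1 - e3) * (e1 - e2)), by ring⟩)
  have em := g5 (-1) (by norm_num) (hdiv _ ⟨-((e1 - e2) * (e1 - e3) * (e2 - e3) * (e1 - e2)), by ring⟩)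
  have hr0 : ∀ x, rep g x ≠ 0 := fun x => (g1 x).ne_zero
  set A := ecl g ((e1 - e2) * (e1 - e3)) with hA
  set B := ecl g ((e2 - e1) * (e2 - e3)) with hB
  set M := ecl g (-1) with hM
  refine ⟨r, g, PD g e1 e2 e3 W, ?_, ?_, ?_, l1, l3, ?_⟩
  · refine ⟨fun X hX => hs X hX, fun Y hY => hm Y hY, hle ht1, hle ht2, ?_, ?_, ?_, ?_⟩
    · intro h0
      have h0' : A = 0 := h0
      rw [h0', rep_zero, mul_one] at ea
      exact hC.n1 ea
    · intro h0
      have h0' : B = 0 := h0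
      rw [h0', rep_zero, mul_one] at eb
      exact hC.n2 eb
    · intro h0
      have h0' : A + B = M := h0
      have h1 := g3 A B
      rw [h0'] at h1
      have h2 := ((ea.mul eb).mul em).mul h1
      apply hC.n3
      refine sq_cancel (s := (e1 - e2) * (rep g A * rep g B * rep g M)) (mul_ne_zero n12
        (mul_ne_zero (mul_ne_zero (hr0 A) (hr0 B)) (hr0 M))) ?_
      have h3 : (e3 - e1) * (e3 - e2) * ((e1 - e2) * (rep g A * rep g B * rep g M)) ^ 2 =
          (e1 - e2) * (e1 - e3) * rep g A * ((e2 - e1) * (e2 - e3) * rep g B) * (-1 * rep g M) *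
            (rep g A * rep g B * rep g M) := by ring
      rw [h3]
      exact h2
    · rintro ⟨h1, h2⟩
      have h1' : A = M := h1
      have h2' : B = M := h2
      rw [h1'] at ea
      rw [h2'] at eb
      have hM2 : 0 < rep g M * rep g M := by
        have := mul_self_pos.2 (hr0 M)
        exact this
      have k1 := (ea.mul em).nonneg
      have k2 := (eb.mul em).nonneg
      have k3 : (e1 - e2) * (e1 - e3) ≤ 0 := by
        by_contra hcon
        push Not at hcon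
        have : 0 < (e1 - e2) * (e1 - e3) * (rep g M * rep g M) := mul_pos hcon hM2
        nlinarith
      have k4 : (e2 - e1) * (e2 - e3) ≤ 0 := by
        by_contra hcon
        push Not at hcon
        have : 0 < (e2 - e1) * (e2 - e3) * (rep g M * rep g M) := mul_pos hcon hM2
        nlinarith
      have k5 : 0 < (e1 - e2) * (e1 - e2) := mul_self_pos.2 n12
      nlinarith
  · refine ⟨k, ?_⟩
    rw [← hcard, ← hRK hGEN hLAB hLCG hGOOD hUNR b e1 e2 e3 r g hg hC]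
    refine Nat.card_congr (Equiv.subtypeEquivRight fun s => ?_)
    show ((s, 0) : Hr r) ∈ W ↔ _
    rw [hG s, ← hW]
    exact Iff.rfl
  · exact
    { toLabZ := l5
      uu := l6
      surj := fun π => by
        obtain ⟨a, ha, h⟩ := l2 π
        exact ⟨a, ha, fun p _ hp => h p hp⟩ }
  · intro d hd hdc hd0
    exact hINJ hSUB hGEN hLAB hLCG hUNR hRAM b e1 e2 e3 r g hg hC W
      (fun X hX => hle ((hW X).2 hX)) d hd hdc hd0

end Pool.Agent.N869.GK.D
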