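import Pool.Agent.TH841.SH.SelR
import Pool.Agent.W313.HB.Stm
import Pool.Agent.N869.GK.Stm

/-!
# Project GK (helper869), descent: the 2-Selmer groups of the twists of `y² = (x - e₁) (x - e₂) (x - e₃)`

`b` is the set of the odd primes dividing `(e₁ - e₂) (e₁ - e₃) (e₂ - e₃)`, `MM b = 8 ∏ b` the modulus, `g` an
enumeration of `-1`, `2` and the primes in `b`. The classes modulo squares of the integers all of whose
prime divisors are in `b ∪ {2}` are the vectors `x : Gr r` (representative `rep g x`, class `ecl g n`). The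
label `lam g n` of a positive integer `n` prime to `MM b` is the vector of the Jacobi symbols `(g i / n)`; it
determines the square classes of `n` in `ℝ` and `ℚ_[p]`, `p ∣ MM b`.
-/

set_option autoImplicit false
set_option linter.unusedVariables false

open scoped Classical

namespace Pool.Agent.N869.GK.D

open Finset
open Pool.Agent.Y703.CQ (nr)
open Pool.Agent.N973.ND (uu)
open Pool.Agent.TH841.SH (LocC SelG)
open Pool.Agent.W307.SE (SelR)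
open Pool.Agent.W313.BMX (Splits)
open Pool.Agent.N869.GK

/-! ### Classes and labels -/

/-- the modulus -/
def MM (b : Finset ℕ) : ℕ := 8 * ∏ l ∈ b, l

/-- `g` enumerates `-1`, `2` and the odd primes in `b` -/
structure Gen (b : Finset ℕ) {r : ℕ} (g : Fin r → ℤ) : Prop where
  odd : ∀ l ∈ b, l.Prime ∧ l ≠ 2
  inj : Function.Injective g
  im : ∀ z : ℤ, (∃ i, g i = z) ↔ z = -1 ∨ z = 2 ∨ ∃ l ∈ b, z = (l : ℤ)

/-- the squarefree representative of a class -/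
def rep {r : ℕ} (g : Fin r → ℤ) (x : Gr r) : ℤ := ∏ i, if x i = 1 then g i else 1

/-- the class of an integer -/
noncomputable def ecl {r : ℕ} (g : Fin r → ℤ) (n : ℤ) : Gr r :=
  if h : ∃ x : Gr r, IsSquare (n * rep g x) then h.choose else 0

/-- the label of a positive integer prime to the modulus -/
def lam {r : ℕ} (g : Fin r → ℤ) (n : ℕ) : Gr r := fun i => if jacobiSym (g i) n = 1 then 0 else 1

/-- GK-GEN: the classes. -/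
def S_GEN : Prop := (∀ b : Finset ℕ, (∀ l ∈ b, l.Prime ∧ l ≠ 2) →
    ∃ (r : ℕ) (g : Fin r → ℤ), Gen b g) ∧
  ∀ (b : Finset ℕ) (r : ℕ) (g : Fin r → ℤ), Gen b g →
    (∀ x, Squarefree (rep g x)) ∧
    (∀ (x : Gr r) (p : ℕ), p.Prime → (p : ℤ) ∣ rep g x → p = 2 ∨ p ∈ b) ∧
    (∀ x y, IsSquare (rep g x * rep g y * rep g (x + y))) ∧
    (∀ x y, IsSquare (rep g x * rep g y) → x = y) ∧
    (∀ n : ℤ, n ≠ 0 → (∀ p : ℕ, p.Prime → (p : ℤ) ∣ n → p = 2 ∨ p ∈ b) →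
      IsSquare (n * rep g (ecl g n)))

/-- GK-LAB: the labels. -/
def S_LAB : Prop := S_GEN → ∀ (b : Finset ℕ) (r : ℕ) (g : Fin r → ℤ), Gen b g →
  (∀ u w : ℕ, u.Coprime (MM b) → w.Coprime (MM b) → lam g (u * w) = lam g u + lam g w) ∧
  (∀ π : Gr r, ∃ a : ℕ, a.Coprime (MM b) ∧ ∀ n : ℕ, n % MM b = a % MM b → lam g n = π) ∧
  (∀ n : ℕ, n.Coprime (MM b) → (lam g n = 0 ↔ n % 8 = 1 ∧ ∀ l ∈ b, nr l n = 0)) ∧
  (∀ p : ℕ, p.Prime → ¬ p ∣ MM b → ∀ x : Gr r,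
    dot x (lam g p) = if IsSquare ((rep g x : ℤ) : ZMod p) then 0 else 1) ∧
  LabZ (MM b) (lam g) ∧
  (∀ p : ℕ, p.Prime → ¬ p ∣ MM b → uu p = dot (ecl g (-1)) (lam g p)) ∧
  ∀ n : ℕ, n.Coprime (MM b) → lam g n = 0 → IsSquare ((n : ℤ) : ℝ) ∧
    ∀ (p : ℕ) [Fact p.Prime], p ∣ MM b → IsSquare ((n : ℤ) : ℚ_[p])

/-! ### Hilbert symbols -/

/-- the Hilbert symbol over the real numbers -/
noncomputable def hR (m n : ℤ) : ZMod 2 := if Splits (m : ℝ) (n : ℝ) then 0 else 1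

/-- the Hilbert symbol at `p` -/
noncomputable def hP (p : ℕ) [Fact p.Prime] (m n : ℤ) : ZMod 2 :=
  if Splits (m : ℚ_[p]) (n : ℚ_[p]) then 0 else 1

/-- the Hilbert symbol at `p`, zero if `p` is not a prime -/
noncomputable def hQ (p : ℕ) (m n : ℤ) : ZMod 2 :=
  if h : p.Prime then (haveI : Fact p.Prime := ⟨h⟩; hP p m n) else 0

/-- the sum of the Hilbert symbols at the bad places -/
noncomputable def HS (M : ℕ) (m n : ℤ) : ZMod 2 := hR m n + ∑ p ∈ M.primeFactors, hQ p m n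

/-- GK-HS: the sum of the Hilbert symbols at the bad places. -/
def S_HS : Prop := S_GEN → S_LAB → ∀ (b : Finset ℕ) (r : ℕ) (g : Fin r → ℤ), Gen b g →
  ∀ (x y : Gr r) (u w : ℕ), u.Coprime (MM b) → w.Coprime (MM b) →
  HS (MM b) (rep g x * u) (rep g y * w) = dot x (lam g w) + dot y (lam g u) +
    dot (ecl g (-1)) (lam g u) * dot (ecl g (-1)) (lam g w)

/-- GK-QV: the quadratic form at the classes of local points. -/
def S_QV : Prop := ∀ e1 e2 e3 m n : ℤ, e1 ≠ e2 → m ≠ 0 → n ≠ 0 →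
  (LocC ℝ e1 e2 e3 m n → hR m n + hR m (e1 - e2) + hR n (e2 - e1) = 0) ∧
  ∀ (p : ℕ) [Fact p.Prime], LocC ℚ_[p] e1 e2 e3 m n →
    hP p m n + hP p m (e1 - e2) + hP p n (e2 - e1) = 0

/-- the classes of the points over `K` form a group -/
structure GrpK (K : Type) [Field K] (e1 e2 e3 : ℤ) : Prop where
  cls : ∀ m n m' n' : ℤ, m ≠ 0 → n ≠ 0 → m' ≠ 0 → n' ≠ 0 → IsSquare ((m * m' : ℤ) : K) →
    IsSquare ((n * n' : ℤ) : K) → LocC K e1 e2 e3 m n → LocC K e1 e2 e3 m' n'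
  mul : ∀ m n m' n' : ℤ, m ≠ 0 → n ≠ 0 → m' ≠ 0 → n' ≠ 0 → LocC K e1 e2 e3 m n →
    LocC K e1 e2 e3 m' n' → LocC K e1 e2 e3 (m * m') (n * n')
  one : LocC K e1 e2 e3 1 1
  t1 : LocC K e1 e2 e3 ((e1 - e2) * (e1 - e3)) (e1 - e2)
  t2 : LocC K e1 e2 e3 (e2 - e1) ((e2 - e1) * (e2 - e3))

/-- GK-LCG: the local groups. -/
def S_LCG : Prop := ∀ e1 e2 e3 : ℤ, e1 ≠ e2 → e1 ≠ e3 → e2 ≠ e3 →
  GrpK ℝ e1 e2 e3 ∧ ∀ (p : ℕ) [Fact p.Prime], GrpK ℚ_[p] e1 e2 e3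

/-! ### Good primes and primes dividing the twisting number -/

/-- GK-GOOD: at the good primes all the unramified classes come from points. -/
def S_GOOD : Prop := S_LCG → ∀ (e1 e2 e3 : ℤ) (p : ℕ) [Fact p.Prime], p ≠ 2 →
  ¬ (p : ℤ) ∣ (e1 - e2) * (e1 - e3) * (e2 - e3) → ∀ m n : ℤ, ¬ (p : ℤ) ∣ m → ¬ (p : ℤ) ∣ n →
  LocC ℚ_[p] e1 e2 e3 m n

/-- GK-UNR: at the good primes the classes of the points are unramified. -/
def S_UNR : Prop := ∀ (e1 e2 e3 : ℤ) (p : ℕ) [Fact p.Prime], p ≠ 2 →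
  ¬ (p : ℤ) ∣ (e1 - e2) * (e1 - e3) * (e2 - e3) → ∀ m n : ℤ, Squarefree m → Squarefree n →
  LocC ℚ_[p] e1 e2 e3 m n → ¬ (p : ℤ) ∣ m ∧ ¬ (p : ℤ) ∣ n

/-- GK-RAM: the classes of the points of the twist by `d` at a prime dividing `d`. -/
def S_RAM : Prop := ∀ (e1 e2 e3 d : ℤ) (p : ℕ) [Fact p.Prime], p ≠ 2 →
  ¬ (p : ℤ) ∣ (e1 - e2) * (e1 - e3) * (e2 - e3) → (p : ℤ) ∣ d → ¬ (p : ℤ) ^ 2 ∣ d →
  ∀ m n : ℤ, Squarefree m → Squarefree n →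
  LocC ℚ_[p] (d * e1) (d * e2) (d * e3) m n →
  IsSquare ((m * (if (p : ℤ) ∣ m then d * (e2 - e1) else 1) *
    (if (p : ℤ) ∣ n then (e1 - e2) * (e1 - e3) else 1) : ℤ) : ℚ_[p]) ∧
  IsSquare ((n * (if (p : ℤ) ∣ m then (e2 - e1) * (e2 - e3) else 1) *
    (if (p : ℤ) ∣ n then d * (e1 - e2) else 1) : ℤ) : ℚ_[p])

/-! ### The curve -/

/-- the hypotheses on the curve -/
structure Crv (b : Finset ℕ) (e1 e2 e3 : ℤ) : Prop where
  h12 : e1 ≠ e2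
  h13 : e1 ≠ e3
  h23 : e2 ≠ e3
  mem : ∀ p : ℕ, p ∈ b ↔ p.Prime ∧ p ≠ 2 ∧ (p : ℤ) ∣ (e1 - e2) * (e1 - e3) * (e2 - e3)
  n1 : ¬ IsSquare ((e1 - e2) * (e1 - e3))
  n2 : ¬ IsSquare ((e2 - e1) * (e2 - e3))
  n3 : ¬ IsSquare ((e3 - e1) * (e3 - e2))

/-- the local conditions at the bad places -/
def LS (b : Finset ℕ) (e1 e2 e3 m n : ℤ) : Prop :=
  LocC ℝ e1 e2 e3 m n ∧ ∀ (p : ℕ) [Fact p.Prime], p ∣ MM b → LocC ℚ_[p] e1 e2 e3 m n

/-- the local conditions at the bad places for classes and labels -/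
def InW (b : Finset ℕ) (e1 e2 e3 : ℤ) {r : ℕ} (g : Fin r → ℤ) (X : Hr r) : Prop :=
  ∀ u : Fin 2 → ℕ, (∀ c, (u c).Coprime (MM b) ∧ lam g (u c) = X.2 c) →
    LS b e1 e2 e3 (rep g (X.1 0) * u 0) (rep g (X.1 1) * u 1)

/-- the data of the curve, with any group `W` -/
noncomputable def PD {r : ℕ} (g : Fin r → ℤ) (e1 e2 e3 : ℤ) (W : AddSubgroup (Hr r)) : Par r where
  em := ecl g (-1)
  ll := ecl g (e1 - e2)
  aa := ecl g ((e1 - e2) * (e1 - e3))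
  bb := ecl g ((e2 - e1) * (e2 - e3))
  W := W

/-- GK-W0: the group of the local conditions. -/
def S_W0 : Prop := S_GEN → S_LAB → S_HS → S_QV → S_LCG →
  ∀ (b : Finset ℕ) (e1 e2 e3 : ℤ) (r : ℕ) (g : Fin r → ℤ), Gen b g → Crv b e1 e2 e3 →
  ∃ W : AddSubgroup (Hr r), (∀ X, X ∈ W ↔ InW b e1 e2 e3 g X) ∧
    (∀ X ∈ W, qS (PD g e1 e2 e3 W) X = 0) ∧
    ((![(PD g e1 e2 e3 W).aa, (PD g e1 e2 e3 W).ll], 0) : Hr r) ∈ W ∧
    ((![(PD g e1 e2 e3 W).ll + (PD g e1 e2 e3 W).em, (PD g e1 e2 e3 W).bb], 0) : Hr r) ∈ W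

/-- GK-EXT: extension to a maximal subgroup. -/
def S_EXT : Prop := ∀ (r : ℕ) (D : Par r), (∀ X ∈ D.W, qS D X = 0) →
  ∃ W : AddSubgroup (Hr r), D.W ≤ W ∧ (∀ X ∈ W, qS D X = 0) ∧
    (∀ Y, (∀ X ∈ W, bS D X Y = 0) → Y ∈ W) ∧
    ∀ s : Fin 2 → Gr r, ((s, 0) : Hr r) ∈ W ↔ ((s, 0) : Hr r) ∈ D.W

/-- GK-RK: the 2-Selmer group of the curve. -/
def S_RK : Prop := S_GEN → S_LAB → S_LCG → S_GOOD → S_UNR →
  ∀ (b : Finset ℕ) (e1 e2 e3 : ℤ) (r : ℕ) (g : Fin r → ℤ), Gen b g → Crv b e1 e2 e3 →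
  Nat.card {s : Fin 2 → Gr r // InW b e1 e2 e3 g (s, 0)} = (SelG e1 e2 e3).ncard

/-- GK-INJ: the 2-Selmer groups of the twists. -/
def S_INJ : Prop := S_SUB → S_GEN → S_LAB → S_LCG → S_UNR → S_RAM →
  ∀ (b : Finset ℕ) (e1 e2 e3 : ℤ) (r : ℕ) (g : Fin r → ℤ), Gen b g → Crv b e1 e2 e3 →
  ∀ W : AddSubgroup (Hr r), (∀ X, InW b e1 e2 e3 g X → X ∈ W) →
  ∀ d : ℕ, Squarefree d → d.Coprime (MM b) → lam g d = 0 →
  (SelG (d * e1) (d * e2) (d * e3)).Finite ∧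
    (SelG (d * e1) (d * e2) (d * e3)).ncard ≤
      {x | Sol (PD g e1 e2 e3 W) (lam g) nr d.primeFactors x}.ncard

/-- GK-GR: the two descriptions of the 2-Selmer group. -/
def S_GR : Prop := ∀ (A B e1 e2 e3 : ℤ), 4 * A ^ 3 + 27 * B ^ 2 ≠ 0 →
  (∀ x : ℤ, x ^ 3 + A * x + B = (x - e1) * (x - e2) * (x - e3)) →
  (SelR A B).Finite ∧ (SelG e1 e2 e3).Finite ∧ (SelG e1 e2 e3).ncard = (SelR A B).ncard

/-- GK-DES: the conclusion of the descent. -/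
def S_DES : Prop := ∀ (b : Finset ℕ) (e1 e2 e3 : ℤ), Crv b e1 e2 e3 → ∀ k e : ℕ,
  (SelG e1 e2 e3).ncard = 2 ^ (2 * k + e) →
  ∃ (r : ℕ) (g : Fin r → ℤ) (D : Par r), Ok D ∧ Rk D e ∧ LabOk D (MM b) (lam g) ∧
    (∀ u w : ℕ, u.Coprime (MM b) → w.Coprime (MM b) → lam g (u * w) = lam g u + lam g w) ∧
    (∀ n : ℕ, n.Coprime (MM b) → (lam g n = 0 ↔ n % 8 = 1 ∧ ∀ l ∈ b, nr l n = 0)) ∧
    ∀ d : ℕ, Squarefree d → d.Coprime (MM b) → lam g d = 0 →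
      (SelG (d * e1) (d * e2) (d * e3)).Finite ∧
      (SelG (d * e1) (d * e2) (d * e3)).ncard ≤ {x | Sol D (lam g) nr d.primeFactors x}.ncard

end Pool.Agent.N869.GK.D
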